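import Mathlib

namespace Pool.Agent.Results.MP_aff17b_co.Level

variable {n : ℕ}

/-- The lecture hall simplex in dimension `n+1`. -/
def P (s : Fin (n + 1) → ℕ) : Set (Fin (n + 1) → ℝ) :=
  {x | 0 ≤ x 0 / s 0 ∧ (∀ j : Fin n, x j.castSucc / s j.castSucc ≤ x j.succ / s j.succ) ∧
    x (Fin.last n) / s (Fin.last n) ≤ 1}

/-- The cone over `X × {1}`. -/
def cone {E : Type} [AddCommGroup E] [Module ℝ E] (X : Set E) : Set (E × ℝ) :=
  {z | ∃ t : ℝ, 0 ≤ t ∧ ∃ p ∈ X, z = t • (p, (1 : ℝ))}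

/-- The lattice point `(x, h)`. -/
def lat {m : ℕ} (x : Fin m → ℤ) (h : ℤ) : (Fin m → ℝ) × ℝ := (fun i => (x i : ℝ), (h : ℝ))

def IsLevel {m : ℕ} (X : Set (Fin m → ℝ)) : Prop :=
  ∃ d₀ : ℤ, IsLeast {h | ∃ x, lat x h ∈ interior (cone X)} d₀ ∧
    ∀ x h, lat x h ∈ interior (cone X) →
      ∃ u v, lat u d₀ ∈ interior (cone X) ∧ lat v (h - d₀) ∈ cone X ∧ x = u + v

section
variable (s : Fin (n + 1) → ℕ) (hs : ∀ i, 1 ≤ s i)
include hs

theorem cone_iff (z : (Fin (n + 1) → ℝ) × ℝ) : z ∈ cone (P s) ↔ 0 ≤ z.1 0 / s 0 ∧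
    (∀ j : Fin n, z.1 j.castSucc / s j.castSucc ≤ z.1 j.succ / s j.succ) ∧
    z.1 (Fin.last n) / s (Fin.last n) ≤ z.2 := by
  constructor
  · rintro ⟨t, ht, p, ⟨h1, h2, h3⟩, rfl⟩
    simp only [Prod.smul_mk, Pi.smul_apply, smul_eq_mul, mul_div_assoc]
    exact ⟨mul_nonneg ht h1, fun j => mul_le_mul_of_nonneg_left (h2 j) ht,
      mul_le_mul_of_nonneg_left h3 ht⟩
  · rintro ⟨h1, h2, h3⟩
    have hm : Monotone fun i => z.1 i / s i := Fin.monotone_iff_le_succ.2 h2
    have h0 : 0 ≤ z.2 := h1.trans ((hm (Fin.zero_le _)).trans h3)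
    rcases h0.eq_or_lt with h | h
    · refine ⟨0, le_rfl, 0, ⟨by simp, by simp, by simp⟩, ?_⟩
      have : ∀ i, z.1 i = 0 := fun i => by
        have a : 0 ≤ z.1 i / s i := h1.trans (hm (Fin.zero_le i))
        have b : z.1 i / s i ≤ 0 := ((hm (Fin.le_last i)).trans h3).trans h.ge
        have c : (s i : ℝ) ≠ 0 := by have := hs i; positivity
        simpa [c] using le_antisymm b a
      ext i <;> simp [this, ← h]
    · refine ⟨z.2, h0, z.2⁻¹ • z.1, ?_, ?_⟩
      · simp only [P, Set.mem_setOf_eq, Pi.smul_apply, smul_eq_mul, mul_div_assoc]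
        exact ⟨by positivity, fun j => mul_le_mul_of_nonneg_left (h2 j) (by positivity),
          inv_mul_le_one_of_le₀ h3 h0⟩
      · ext i <;> simp [h.ne']

theorem pos {E : Type} [NormedAddCommGroup E] [NormedSpace ℝ E] [FiniteDimensional ℝ E]
    {S : Set E} (l : E → ℝ) (hl : IsLinearMap ℝ l) (w : E) (hw : l w ≠ 0)
    (h : ∀ z ∈ S, 0 ≤ l z) {z : E} (hz : z ∈ interior S) : 0 < l z := by
  have ho : IsOpenMap (hl.mk' l) := LinearMap.isOpenMap_of_finiteDimensional _ fun r =>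
    ⟨(r / l w) • w, by simp [hw]⟩
  have := interior_mono (t := Set.Ici 0) (by rintro _ ⟨y, hy, rfl⟩; exact h y hy)
    (ho.image_interior_subset S ⟨z, hz, rfl⟩)
  simpa using this

theorem int_iff (z : (Fin (n + 1) → ℝ) × ℝ) : z ∈ interior (cone (P s)) ↔ 0 < z.1 0 / s 0 ∧
    (∀ j : Fin n, z.1 j.castSucc / s j.castSucc < z.1 j.succ / s j.succ) ∧
    z.1 (Fin.last n) / s (Fin.last n) < z.2 := by
  have c : ∀ i, (s i : ℝ) ≠ 0 := fun i => by have := hs i; positivity
  constructor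
  · intro hz
    refine ⟨pos s hs (fun z => z.1 0 / s 0) ⟨fun _ _ => by simp [add_div], fun _ _ => by
      simp [mul_div_assoc]⟩ (1, 0) (by simp [c]) (fun y hy => ((cone_iff s hs y).1 hy).1) hz,
      fun j => sub_pos.1 (pos s hs (fun z => z.1 j.succ / s j.succ - z.1 j.castSucc / s j.castSucc)
        ⟨fun _ _ => by simp [add_div]; ring, fun _ _ => by simp; ring⟩ (Pi.single j.succ 1, 0) ?_
        (fun y hy => sub_nonneg.2 (((cone_iff s hs y).1 hy).2.1 j)) hz),
      sub_pos.1 (pos s hs (fun z => z.2 - z.1 (Fin.last n) / s (Fin.last n))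
        ⟨fun _ _ => by simp [add_div]; ring, fun _ _ => by simp; ring⟩ (0, 1) (by simp)
        (fun y hy => sub_nonneg.2 ((cone_iff s hs y).1 hy).2.2) hz)⟩
    simp [c, Fin.castSucc_lt_succ.ne]
  · intro hz
    refine interior_maximal (t := {z : (Fin (n + 1) → ℝ) × ℝ | 0 < z.1 0 / s 0 ∧
      (∀ j : Fin n, z.1 j.castSucc / s j.castSucc < z.1 j.succ / s j.succ) ∧
      z.1 (Fin.last n) / s (Fin.last n) < z.2}) (fun y hy => (cone_iff s hs y).2
        ⟨hy.1.le, fun j => (hy.2.1 j).le, hy.2.2.le⟩) ?_ hz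
    have o1 : IsOpen {z : (Fin (n + 1) → ℝ) × ℝ | 0 < z.1 0 / s 0} :=
      isOpen_lt (by fun_prop) (by fun_prop)
    have o3 : IsOpen {z : (Fin (n + 1) → ℝ) × ℝ | z.1 (Fin.last n) / s (Fin.last n) < z.2} :=
      isOpen_lt (by fun_prop) (by fun_prop)
    refine o1.inter (IsOpen.inter ?_ o3)
    have : IsOpen (⋂ j : Fin n, {z : (Fin (n + 1) → ℝ) × ℝ |
        z.1 j.castSucc / s j.castSucc < z.1 j.succ / s j.succ}) :=
      isOpen_iInter_of_finite fun j => isOpen_lt (by fun_prop) (by fun_prop)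
    rw [← Set.setOf_forall] at this
    exact this
end

theorem result (n : ℕ) (s : Fin (n + 1) → ℕ) (hs : ∀ i, 1 ≤ s i) (c : Fin (n + 1) → ℤ)
    (h0 : c 0 = 1) (hc : ∀ j : Fin n, c j.succ * s j.castSucc =
      c j.castSucc * s j.succ + Nat.gcd (s j.castSucc) (s j.succ)) : IsLevel (P s) := by
  have sp : ∀ i, (0 : ℝ) < s i := fun i => by have := hs i; positivity
  have sz : ∀ i, (0 : ℤ) < s i := fun i => by have := hs i; positivity
  have lt : ∀ (x : Fin (n + 1) → ℤ) a b, (x a : ℝ) / s a < x b / s b ↔ x a * s b < x b * s a :=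
    fun x a b => by rw [div_lt_div_iff₀ (sp a) (sp b)]; norm_cast
  have le : ∀ (x : Fin (n + 1) → ℤ) a b, (x a : ℝ) / s a ≤ x b / s b ↔ x a * s b ≤ x b * s a :=
    fun x a b => by rw [div_le_div_iff₀ (sp a) (sp b)]; norm_cast
  have I : ∀ x h, lat x h ∈ interior (cone (P s)) ↔ 0 < x 0 ∧
      (∀ j : Fin n, x j.castSucc * s j.succ < x j.succ * s j.castSucc) ∧
      x (Fin.last n) < h * s (Fin.last n) := fun x h => by
    rw [int_iff s hs]
    simp only [lat, lt, div_pos_iff_of_pos_right (sp 0), div_lt_iff₀ (sp _)]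
    norm_cast
  have C : ∀ x h, lat x h ∈ cone (P s) ↔ 0 ≤ x 0 ∧
      (∀ j : Fin n, x j.castSucc * s j.succ ≤ x j.succ * s j.castSucc) ∧
      x (Fin.last n) ≤ h * s (Fin.last n) := fun x h => by
    rw [cone_iff s hs]
    simp only [lat, le, le_div_iff₀ (sp 0), div_le_iff₀ (sp _), zero_mul]
    norm_cast
  have G : ∀ x h, lat x h ∈ interior (cone (P s)) → 0 ≤ x 0 - c 0 ∧ ∀ j : Fin n,
      (x j.castSucc - c j.castSucc) * s j.succ ≤ (x j.succ - c j.succ) * s j.castSucc := by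
    intro x h hx
    obtain ⟨h1, h2, -⟩ := (I x h).1 hx
    refine ⟨by omega, fun j => ?_⟩
    have : ((Nat.gcd (s j.castSucc) (s j.succ) : ℕ) : ℤ) ∣
        x j.succ * s j.castSucc - x j.castSucc * s j.succ :=
      dvd_sub (Dvd.dvd.mul_left (Int.natCast_dvd_natCast.2 (Nat.gcd_dvd_left _ _)) _)
        (Dvd.dvd.mul_left (Int.natCast_dvd_natCast.2 (Nat.gcd_dvd_right _ _)) _)
    have := Int.le_of_dvd (sub_pos.2 (h2 j)) this
    have := hc j
    linarith
  have gp : ∀ j : Fin n, c j.castSucc * s j.succ < c j.succ * s j.castSucc := fun j => by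
    have := hc j
    have : 0 < Nat.gcd (s j.castSucc) (s j.succ) := Nat.gcd_pos_of_pos_left _ (hs _)
    omega
  have nn : ∀ x h, lat x h ∈ interior (cone (P s)) → ∀ i, 0 ≤ x i - c i := by
    intro x h hx i
    induction i using Fin.induction with
    | zero => exact (G x h hx).1
    | succ j ih =>
      exact nonneg_of_mul_nonneg_left ((mul_nonneg ih (sz _).le).trans ((G x h hx).2 j)) (sz _)
  set d := c (Fin.last n) / s (Fin.last n) + 1 with hd
  have d1 : c (Fin.last n) < d * s (Fin.last n) := Int.lt_ediv_add_one_mul_self _ (sz _)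
  have low : ∀ x h, lat x h ∈ interior (cone (P s)) → d ≤ h := fun x h hx => by
    have a := nn x h hx (Fin.last n)
    have b := ((I x h).1 hx).2.2
    exact Int.ediv_lt_of_lt_mul (sz _) (by linarith)
  refine ⟨d, ⟨⟨c, (I c d).2 ⟨by omega, gp, d1⟩⟩, fun h ⟨x, hx⟩ => low x h hx⟩, fun x h hx => ?_⟩
  have hm : 0 ≤ h - d := sub_nonneg.2 (low x h hx)
  refine ⟨fun i => c i + max (x i - c i - (h - d) * s i) 0, fun i => min (x i - c i) ((h - d) * s i),
    (I _ _).2 ⟨by omega, fun j => ?_, ?_⟩, (C _ _).2 ⟨?_, fun j => ?_, min_le_right _ _⟩, ?_⟩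
  · have a := (G x h hx).2 j
    have b := gp j
    rw [add_mul, add_mul, max_mul_of_nonneg _ _ (sz _).le, max_mul_of_nonneg _ _ (sz _).le]
    refine add_lt_add_of_lt_of_le b (max_le_max (by linarith) (by simp))
  · have b := ((I x h).1 hx).2.2
    rcases max_cases (x (Fin.last n) - c (Fin.last n) - (h - d) * s (Fin.last n)) 0 with e | e <;>
      rw [e.1] <;> linarith
  · exact le_min (G x h hx).1 (mul_nonneg hm (sz _).le)
  · rw [min_mul_of_nonneg _ _ (sz _).le, min_mul_of_nonneg _ _ (sz _).le]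
    exact min_le_min ((G x h hx).2 j) (by linarith)
  · funext i
    simp only [Pi.add_apply]
    omega

end Pool.Agent.Results.MP_aff17b_co.Level
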